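import Mathlib
import Pool.Agent.H33.G.R_seed8.H499R2.NDCor

/-! Uniform convergence to the natural densities of the invariant sets. -/

set_option autoImplicit false

namespace Pool.Agent.W41

open Finset Filter Topology Pool.Agent.H499R2.ND

open Classical in
/-- number of `m ≤ N`, `m ≥ 1`, with `s m ∈ S` -/
noncomputable def cF (s : ℤ) (S : Set ℤ) (N : ℕ) : ℕ := ((Icc 1 N).filter (fun m : ℕ => s * (m : ℤ) ∈ S)).card

theorem s_mul {s : ℤ} (hs : s = 1 ∨ s = -1) (x : ℤ) : s * (s * x) = x := by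
  rcases hs with rfl | rfl <;> ring

theorem cF_ncard {s : ℤ} (hs : s = 1 ∨ s = -1) (S : Set ℤ) (N : ℕ) :
    {n : ℤ | 0 < s * n ∧ s * n ≤ N ∧ n ∈ S}.ncard = cF s S N := by
  classical
  have e : {n : ℤ | 0 < s * n ∧ s * n ≤ N ∧ n ∈ S} =
      (((Icc 1 N).filter (fun m : ℕ => s * (m : ℤ) ∈ S)).image (fun m : ℕ => s * (m : ℤ)) : Finset ℤ) := by
    ext n
    simp only [Set.mem_ofPred_eq, coe_image, coe_filter, Set.mem_image, mem_Icc]
    constructor
    · rintro ⟨h1, h2, h3⟩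
      refine ⟨(s * n).toNat, ⟨⟨by omega, by omega⟩, ?_⟩, ?_⟩
      · rw [Int.toNat_of_nonneg h1.le, s_mul hs]; exact h3
      · rw [Int.toNat_of_nonneg h1.le, s_mul hs]
    · rintro ⟨m, ⟨⟨h1, h2⟩, h3⟩, rfl⟩
      rw [s_mul hs]
      exact ⟨by exact_mod_cast h1, by exact_mod_cast h2, h3⟩
  rw [e, Set.ncard_coe_finset, card_image_of_injective]
  · rfl
  · intro a b hab
    have h1 : s * (a : ℤ) = s * (b : ℤ) := hab
    have h2 := congrArg (fun x => s * x) h1
    simp only [s_mul hs] at h2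
    exact_mod_cast h2

theorem cF_tendsto {s : ℤ} (hs : s = 1 ∨ s = -1) {S : Set ℤ} {l : ℝ} (h : HD s S l) :
    Tendsto (fun N : ℕ => (cF s S N : ℝ) / N) atTop (𝓝 l) :=
  (HD_ncard hs h).congr fun N => by rw [cF_ncard hs]

theorem cF_compl (s : ℤ) (S : Set ℤ) (N : ℕ) : cF s S N + cF s Sᶜ N = N := by
  classical
  unfold cF
  have := card_filter_add_card_filter_not (s := Icc 1 N) (fun m : ℕ => s * (m : ℤ) ∈ S)
  rw [Nat.card_Icc, Nat.add_sub_cancel] at this
  refine Eq.trans ?_ this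
  congr 2
  ext m
  simp only [mem_filter, Set.mem_compl_iff]

open Classical in
/-- classes contained in an invariant set -/
theorem cF_classes {s : ℤ} (hs : s = 1 ∨ s = -1) {S : Set ℤ} (hS : Inv 1 S)
    (F : Finset {a : ℤ // IsRp 1 s a}) (N : ℕ) :
    ∑ a ∈ F.filter (fun a : {a : ℤ // IsRp 1 s a} => (a : ℤ) ∈ S), cF s (Mg (Td 1) (a : ℤ)) N ≤ cF s S N := by
  unfold cF
  rw [← card_biUnion]
  · apply card_le_card
    intro m hm
    rw [mem_biUnion] at hm
    obtain ⟨a, ha, hm⟩ := hm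
    rw [mem_filter] at ha hm ⊢
    exact ⟨hm.1, (inv_class hS hm.2).2 ha.2⟩
  · intro a ha b hb hab
    rw [Function.onFun, disjoint_left]
    intro m h1 h2
    rw [mem_filter] at h1 h2
    exact hab (Subtype.ext (rep_unique hs a.2 b.2 (Mg_trans (Mg_symm h1.2) h2.2)))

open Classical in
theorem cF_classes_R {s : ℤ} (hs : s = 1 ∨ s = -1) {S : Set ℤ} (hS : Inv 1 S)
    (F : Finset {a : ℤ // IsRp 1 s a}) (N : ℕ) :
    ∑ a ∈ F.filter (fun a : {a : ℤ // IsRp 1 s a} => (a : ℤ) ∈ S), (cF s (Mg (Td 1) (a : ℤ)) N : ℝ) ≤ cF s S N := by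
  exact_mod_cast cF_classes hs hS F N

/-- UNIFORM CONVERGENCE of the counting functions of all invariant sets. -/
theorem unif {s : ℤ} (hs : s = 1 ∨ s = -1) {ε : ℝ} (hε : 0 < ε) : ∃ N0 : ℕ, ∀ S : Set ℤ, Inv 1 S →
    ∀ δ : ℝ, HD s S δ → ∀ N : ℕ, N0 ≤ N → |(cF s S N : ℝ) - δ * N| ≤ ε * N := by
  classical
  obtain ⟨δc, h1, -, h3, h4⟩ := structure_d (d := 1) odd_one (by norm_num) hs
  set η : ℝ := ε / 2 with hη
  have hη0 : 0 < η := by positivity
  obtain ⟨F, hF⟩ : ∃ F : Finset {a : ℤ // IsRp 1 s a}, 1 - η < ∑ a ∈ F, δc a := by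
    have := (h4.eventually (lt_mem_nhds (show 1 - η < 1 by linarith))).exists
    exact this
  have hN : ∀ a : {a : ℤ // IsRp 1 s a}, ∃ n : ℕ, ∀ N ≥ n,
      |(cF s (Mg (Td 1) (a : ℤ)) N : ℝ) / N - δc a| < η / (F.card + 1) := by
    intro a
    have := cF_tendsto hs (h1 a).2
    have h5 := Metric.tendsto_atTop.1 this (η / (F.card + 1)) (by positivity)
    obtain ⟨n, hn⟩ := h5
    exact ⟨n, fun N hN => by simpa [Real.dist_eq] using hn N hN⟩
  choose n hn using hN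
  refine ⟨F.sup n + 1, fun S hS δ hδ N hNN => ?_⟩
  have hN0 : (0 : ℝ) < N := by exact_mod_cast (by omega : 0 < N)
  -- lower bound for every invariant set
  have key : ∀ S : Set ℤ, Inv 1 S → ∀ δ : ℝ, HD s S δ → (δ - ε) * N ≤ cF s S N := by
    intro S hS δ hδ
    have hSc : Inv 1 Sᶜ := fun x => not_congr (hS x)
    obtain ⟨δ', -, -, hδ'⟩ := dens_side (d := 1) odd_one (by norm_num) hs hSc
    have hsum := HD_compl hδ hδ'
    have low : ∀ S : Set ℤ, Inv 1 S → ∀ δ : ℝ, HD s S δ → ∑ a ∈ F.filter (fun a : {a : ℤ // IsRp 1 s a} => (a : ℤ) ∈ S), δc a ≤ δ := by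
      intro S hS δ hδ
      have t1 : Tendsto (fun N : ℕ => ∑ a ∈ F.filter (fun a : {a : ℤ // IsRp 1 s a} => (a : ℤ) ∈ S),
          (cF s (Mg (Td 1) (a : ℤ)) N : ℝ) / N) atTop (𝓝 (∑ a ∈ F.filter (fun a : {a : ℤ // IsRp 1 s a} => (a : ℤ) ∈ S), δc a)) :=
        tendsto_finsetSum _ fun a _ => cF_tendsto hs (h1 a).2
      refine le_of_tendsto_of_tendsto t1 (cF_tendsto hs hδ) (Eventually.of_forall fun N => ?_)
      simp only
      rw [← sum_div]
      exact div_le_div_of_nonneg_right (cF_classes_R hs hS F N) (Nat.cast_nonneg _)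
    have l1 : ∑ a ∈ F.filter (fun a : {a : ℤ // IsRp 1 s a} => ¬ (a : ℤ) ∈ S), δc a ≤ δ' := by
      refine le_trans (le_of_eq ?_) (low _ hSc δ' hδ')
      apply sum_congr _ (fun _ _ => rfl)
      ext a
      simp only [mem_filter, Set.mem_compl_iff]
    have hsplit := sum_filter_add_sum_filter_not F (fun a : {a : ℤ // IsRp 1 s a} => (a : ℤ) ∈ S) (fun a => δc a)
    have l2 : δ - η ≤ ∑ a ∈ F.filter (fun a : {a : ℤ // IsRp 1 s a} => (a : ℤ) ∈ S), δc a := by linarith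
    have l3 : ∑ a ∈ F.filter (fun a : {a : ℤ // IsRp 1 s a} => (a : ℤ) ∈ S), (δc a - η / (F.card + 1)) * N ≤
        ∑ a ∈ F.filter (fun a : {a : ℤ // IsRp 1 s a} => (a : ℤ) ∈ S), (cF s (Mg (Td 1) (a : ℤ)) N : ℝ) := by
      apply sum_le_sum
      intro a ha
      have hna : n a ≤ N := by
        have := le_sup (f := n) (mem_filter.1 ha).1
        omega
      have := (abs_lt.1 (hn a N hna)).1
      have h6 : δc a - η / (F.card + 1) ≤ (cF s (Mg (Td 1) (a : ℤ)) N : ℝ) / N := by linarith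
      rwa [le_div_iff₀ hN0] at h6
    have l4 : (δ - ε) * N ≤ ∑ a ∈ F.filter (fun a : {a : ℤ // IsRp 1 s a} => (a : ℤ) ∈ S), (δc a - η / (F.card + 1)) * N := by
      rw [← sum_mul, sum_sub_distrib, sum_const, nsmul_eq_mul]
      apply mul_le_mul_of_nonneg_right _ hN0.le
      have h7 : ((F.filter (fun a : {a : ℤ // IsRp 1 s a} => (a : ℤ) ∈ S)).card : ℝ) ≤ F.card := by
        exact_mod_cast card_filter_le _ _
      have h8 : ((F.filter (fun a : {a : ℤ // IsRp 1 s a} => (a : ℤ) ∈ S)).card : ℝ) * (η / (F.card + 1)) ≤ η := by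
        rw [mul_div_assoc', div_le_iff₀ (by positivity)]
        nlinarith
      linarith
    exact l4.trans (l3.trans (cF_classes_R hs hS F N))
  have hSc : Inv 1 Sᶜ := fun x => not_congr (hS x)
  obtain ⟨δ', -, -, hδ'⟩ := dens_side (d := 1) odd_one (by norm_num) hs hSc
  have hsum := HD_compl hδ hδ'
  have k1 := key S hS δ hδ
  have k2 := key _ hSc δ' hδ'
  have k3 : (cF s S N : ℝ) + cF s Sᶜ N = N := by exact_mod_cast cF_compl s S N
  rw [abs_le]
  constructor <;> nlinarith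

end Pool.Agent.W41
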